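import Pool.Agent.H6.CC4

namespace Pool.Agent.Results.MP_eccde5_an.SharpBounds

open Pool.Agent.H6.CCDefs

/-- The two off-diagonal pure coefficient problems for `N_A`, `A = diag(lam, 1)`, `1 ≤ lam < 2`:
for every `k ≥ 2` the maximum of `|q¹_{0,k}|` is `bound lam 1 k` and the maximum of `|q²_{k,0}|`
is `bound 1 lam k`; for `lam = 1` both equal `((k+1)^(k+1) / k^k)^(1/2)`. -/
theorem result :
    (∀ (lam : ℝ) (k : ℕ), 1 ≤ lam → lam < 2 → 2 ≤ k →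
      (0 < tstar lam 1 k ∧ tstar lam 1 k < 1 ∧
        IsGreatest {r : ℝ | ∃ h ∈ NA lam 1, r = ‖coef1 k h‖} (bound lam 1 k)) ∧
      (0 < tstar 1 lam k ∧ tstar 1 lam k < 1 ∧
        IsGreatest {r : ℝ | ∃ h ∈ NA lam 1, r = ‖coef2 k h‖} (bound 1 lam k))) ∧
    (∀ k : ℕ, 2 ≤ k → bound 1 1 k = Real.sqrt ((k + 1 : ℝ) ^ (k + 1) / (k : ℝ) ^ k)) :=
  Pool.Agent.H6.CC.main

end Pool.Agent.Results.MP_eccde5_an.SharpBounds
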